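import Mathlib

/-!
# Inequivalent subsets of a cyclic group with equal Sidon constants

In the cyclic group of order 24 let `H = {0, 6, 12, 18}`. The five element sets `H ∪ {1}` and
`H ∪ {2}` are not equivalent, both have Sidon constant 2, and neither is extreme.
-/

set_option autoImplicit false

namespace Pool.Agent.Results.MP_e96fbd_an.Five

open Complex

/-- The character `t ↦ exp (2 π i x t / k)` of `ℤ/k` attached to `x`. -/
noncomputable def chi {k : ℕ} [NeZero k] (x t : ZMod k) : ℂ := ZMod.stdAddChar (x * t)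

/-- The Sidon constant of `E`: the supremum of `∑ |a x|` over all polynomials `∑ a x χ_x` with
frequencies in `E` and maximum norm at most one. -/
noncomputable def sidon {k : ℕ} [NeZero k] (E : Finset (ZMod k)) : ℝ :=
  sSup {r : ℝ | ∃ a : ZMod k → ℂ, (∀ t : ZMod k, ‖∑ x ∈ E, a x * chi x t‖ ≤ 1) ∧
    r = ∑ x ∈ E, ‖a x‖}

/-- The set `E` is extreme: its Sidon constant is the square root of its cardinality. -/
def IsExtreme {k : ℕ} [NeZero k] (E : Finset (ZMod k)) : Prop :=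
  sidon E = Real.sqrt (E.card : ℝ)

/-- Equivalence: `F = u E + c` with a unit `u`. -/
def Equivalent {k : ℕ} (E F : Finset (ZMod k)) : Prop :=
  ∃ u c : ZMod k, IsUnit u ∧ F = E.image (fun x => u * x + c)

lemma cube_root {ζ p z : ℂ} (hζ : 1 + ζ + ζ ^ 2 = 0) (h0 : ‖p + z‖ ≤ 1) (h1 : ‖p + ζ * z‖ ≤ 1)
    (h2 : ‖p + ζ ^ 2 * z‖ ≤ 1) : ‖p‖ ^ 2 + ‖z‖ ^ 2 + ‖p‖ * ‖z‖ ≤ 1 := by
  have hre := congrArg Complex.re hζ
  have him := congrArg Complex.im hζ
  simp only [pow_two, add_re, one_re, mul_re, zero_re, add_im, one_im, mul_im, zero_im] at hre him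
  set c := ζ.re with hc
  set s := ζ.im with hs
  have hs0 : s ≠ 0 := by
    intro h
    rw [h] at hre
    nlinarith [sq_nonneg (c + 1 / 2)]
  have hcv : c = -1 / 2 := by
    have : s * (2 * c + 1) = 0 := by linarith
    rcases mul_eq_zero.1 this with h | h
    · exact absurd h hs0
    · linarith
  have hsv : s ^ 2 = 3 / 4 := by rw [hcv] at hre; nlinarith
  have e2 : ζ ^ 2 = -1 - ζ := by linear_combination hζ
  have n0 : ‖p + z‖ ^ 2 ≤ 1 := by nlinarith [norm_nonneg (p + z)]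
  have n1 : ‖p + ζ * z‖ ^ 2 ≤ 1 := by nlinarith [norm_nonneg (p + ζ * z)]
  have n2 : ‖p + ζ ^ 2 * z‖ ^ 2 ≤ 1 := by nlinarith [norm_nonneg (p + ζ ^ 2 * z)]
  rw [e2] at n2
  rw [Complex.sq_norm, Complex.normSq_apply] at n0 n1 n2
  simp only [add_re, add_im, mul_re, mul_im, sub_re, sub_im, neg_re, neg_im, one_re, one_im] at n0 n1 n2
  rw [← hc, ← hs, hcv] at n1 n2
  have hp : ‖p‖ ^ 2 = p.re ^ 2 + p.im ^ 2 := by
    rw [Complex.sq_norm, Complex.normSq_apply]; ring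
  have hz : ‖z‖ ^ 2 = z.re ^ 2 + z.im ^ 2 := by
    rw [Complex.sq_norm, Complex.normSq_apply]; ring
  set P := p.re ^ 2 + p.im ^ 2 with hP
  set Z := z.re ^ 2 + z.im ^ 2 with hZ
  set X := p.re * z.re + p.im * z.im with hX
  set Y := p.re * z.im - p.im * z.re with hY
  set r := ‖p‖ * ‖z‖ with hr
  have hr2 : r ^ 2 = X ^ 2 + Y ^ 2 := by
    rw [hr, mul_pow, hp, hz, hX, hY]; ring
  have hr0 : 0 ≤ r := by positivity
  have m0 : P + Z + 2 * X ≤ 1 := by
    have : P + Z + 2 * X = (p.re + z.re) * (p.re + z.re) + (p.im + z.im) * (p.im + z.im) := by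
      rw [hP, hZ, hX]; ring
    rw [this]; exact n0
  have m1 : P + Z + 2 * (-X / 2 - s * Y) ≤ 1 := by
    refine le_trans (le_of_eq ?_) n1
    rw [hP, hZ, hX, hY]
    linear_combination (-(z.re ^ 2 + z.im ^ 2)) * hsv
  have m2 : P + Z + 2 * (-X / 2 + s * Y) ≤ 1 := by
    refine le_trans (le_of_eq ?_) n2
    rw [hP, hZ, hX, hY]
    linear_combination (-(z.re ^ 2 + z.im ^ 2)) * hsv
  rw [hp, hz]
  by_contra hcon
  push Not at hcon
  have k0 : X < r / 2 := by linarith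
  have k1 : -X / 2 - s * Y < r / 2 := by linarith
  have k2 : -X / 2 + s * Y < r / 2 := by linarith
  have q0 : (X - r / 2) * (X + r) < 0 := mul_neg_of_neg_of_pos (by linarith) (by linarith)
  have q1 : (-X / 2 - s * Y - r / 2) * (-X / 2 - s * Y + r) < 0 :=
    mul_neg_of_neg_of_pos (by linarith) (by linarith)
  have q2 : (-X / 2 + s * Y - r / 2) * (-X / 2 + s * Y + r) < 0 :=
    mul_neg_of_neg_of_pos (by linarith) (by linarith)
  have q3 : (X - r / 2) * (X + r) + (-X / 2 - s * Y - r / 2) * (-X / 2 - s * Y + r) +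
      (-X / 2 + s * Y - r / 2) * (-X / 2 + s * Y + r) = 0 := by
    linear_combination (2 * Y ^ 2) * hsv - (3 / 2) * hr2
  linarith

lemma e_twelve : (ZMod.stdAddChar (12 : ZMod 24) : ℂ) = -1 := by
  have h1 : (ZMod.stdAddChar (12 : ZMod 24) : ℂ) ^ 2 = 1 := by
    rw [pow_two, ← AddChar.map_add_eq_mul]
    have : (12 : ZMod 24) + 12 = 0 := by decide
    rw [this, AddChar.map_zero_eq_one]
  have h2 : ((ZMod.stdAddChar (12 : ZMod 24) : ℂ) - 1) * (ZMod.stdAddChar (12 : ZMod 24) + 1) = 0 := by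
    linear_combination h1
  rcases mul_eq_zero.1 h2 with h | h
  · exfalso
    rw [sub_eq_zero, ← AddChar.map_zero_eq_one (ZMod.stdAddChar (N := 24))] at h
    exact absurd (ZMod.injective_stdAddChar h) (by decide)
  · exact eq_neg_of_add_eq_zero_left h

lemma e_six_sq : (ZMod.stdAddChar (6 : ZMod 24) : ℂ) * ZMod.stdAddChar (6 : ZMod 24) = -1 := by
  rw [← AddChar.map_add_eq_mul, ← e_twelve]
  congr 1

lemma e_eighteen : (ZMod.stdAddChar (18 : ZMod 24) : ℂ) = -ZMod.stdAddChar (6 : ZMod 24) := by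
  have : (18 : ZMod 24) = 12 + 6 := by decide
  rw [this, AddChar.map_add_eq_mul, e_twelve]
  ring

lemma norm_e (x : ZMod 24) : ‖(ZMod.stdAddChar x : ℂ)‖ = 1 := by
  rw [ZMod.stdAddChar_apply]
  exact Circle.norm_coe _

/-- The part of the polynomial with frequencies in the subgroup. -/
noncomputable def pp (a : ZMod 24 → ℂ) (t : ZMod 24) : ℂ :=
  a 0 * chi 0 t + (a 6 * chi 6 t + (a 12 * chi 12 t + a 18 * chi 18 t))

lemma pp_add (a : ZMod 24 → ℂ) (t : ZMod 24) : pp a (t + 8) = pp a t := by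
  have h : ∀ x : ZMod 24, x * 8 = 0 → chi x (t + 8) = chi x t := by
    intro x hx
    unfold chi
    rw [mul_add, hx, add_zero]
  unfold pp
  rw [h 0 (by decide), h 6 (by decide), h 12 (by decide), h 18 (by decide)]

lemma pp_vals (a : ZMod 24 → ℂ) :
    pp a 0 = (a 0 + a 12) + (a 6 + a 18) ∧ pp a 2 = (a 0 + a 12) - (a 6 + a 18) ∧
    pp a 1 = (a 0 - a 12) + ZMod.stdAddChar (6 : ZMod 24) * (a 6 - a 18) ∧
    pp a 3 = (a 0 - a 12) - ZMod.stdAddChar (6 : ZMod 24) * (a 6 - a 18) := by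
  have h0 : (ZMod.stdAddChar (0 : ZMod 24) : ℂ) = 1 := AddChar.map_zero_eq_one _
  refine ⟨?_, ?_, ?_, ?_⟩
  · simp only [pp, chi, mul_zero, h0]
    ring
  · have e1 : (0 : ZMod 24) * 2 = 0 := by decide
    have e2 : (6 : ZMod 24) * 2 = 12 := by decide
    have e3 : (12 : ZMod 24) * 2 = 0 := by decide
    have e4 : (18 : ZMod 24) * 2 = 12 := by decide
    simp only [pp, chi, e1, e2, e3, e4, h0, e_twelve]
    ring
  · simp only [pp, chi, mul_one, h0, e_twelve, e_eighteen]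
    ring
  · have e1 : (0 : ZMod 24) * 3 = 0 := by decide
    have e2 : (6 : ZMod 24) * 3 = 18 := by decide
    have e3 : (12 : ZMod 24) * 3 = 12 := by decide
    have e4 : (18 : ZMod 24) * 3 = 6 := by decide
    simp only [pp, chi, e1, e2, e3, e4, h0, e_twelve, e_eighteen]
    ring

lemma parseval (a : ZMod 24 → ℂ) :
    ‖pp a 0‖ ^ 2 + ‖pp a 1‖ ^ 2 + ‖pp a 2‖ ^ 2 + ‖pp a 3‖ ^ 2 =
      4 * (‖a 0‖ ^ 2 + ‖a 6‖ ^ 2 + ‖a 12‖ ^ 2 + ‖a 18‖ ^ 2) := by
  obtain ⟨h0, h2, h1, h3⟩ := pp_vals a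
  rw [h0, h1, h2, h3]
  have l1 := parallelogram_law_with_norm ℝ (a 0 + a 12) (a 6 + a 18)
  have l2 := parallelogram_law_with_norm ℝ (a 0 - a 12)
    (ZMod.stdAddChar (6 : ZMod 24) * (a 6 - a 18))
  have l3 := parallelogram_law_with_norm ℝ (a 0) (a 12)
  have l4 := parallelogram_law_with_norm ℝ (a 6) (a 18)
  rw [norm_mul, norm_e, one_mul] at l2
  linarith

/-- The subgroup of order four. -/
def H4 : Finset (ZMod 24) := {0, 6, 12, 18}

lemma sum_H4 {M : Type} [AddCommMonoid M] (g : ZMod 24 → M) :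
    ∑ x ∈ H4, g x = g 0 + (g 6 + (g 12 + g 18)) := by
  unfold H4
  rw [Finset.sum_insert (by decide), Finset.sum_insert (by decide), Finset.sum_insert (by decide),
    Finset.sum_singleton]

lemma upper (x0 : ZMod 24) (h8 : 8 * x0 ≠ 0) (hx : x0 ∉ H4) (a : ZMod 24 → ℂ)
    (ha : ∀ t : ZMod 24, ‖∑ x ∈ insert x0 H4, a x * chi x t‖ ≤ 1) :
    ∑ x ∈ insert x0 H4, ‖a x‖ ≤ 2 := by
  rw [Finset.sum_insert hx, sum_H4]
  have hf : ∀ t, ‖pp a t + a x0 * chi x0 t‖ ≤ 1 := by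
    intro t
    have := ha t
    rw [Finset.sum_insert hx, sum_H4, add_comm] at this
    exact this
  set ζ : ℂ := ZMod.stdAddChar (8 * x0) with hζ
  have hζ3 : ζ ^ 3 = 1 := by
    have h1 : ζ ^ 3 = ZMod.stdAddChar (8 * x0 + 8 * x0 + 8 * x0) := by
      rw [AddChar.map_add_eq_mul, AddChar.map_add_eq_mul]; ring
    rw [h1]
    have h2 : 8 * x0 + 8 * x0 + 8 * x0 = 0 := by
      have : (24 : ZMod 24) = 0 := by decide
      linear_combination x0 * this
    rw [h2, AddChar.map_zero_eq_one]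
  have hζ1 : ζ ≠ 1 := by
    intro h
    rw [hζ, ← AddChar.map_zero_eq_one (ZMod.stdAddChar (N := 24))] at h
    exact h8 (ZMod.injective_stdAddChar h)
  have hζ0 : 1 + ζ + ζ ^ 2 = 0 := by
    have h1 : (ζ - 1) * (1 + ζ + ζ ^ 2) = 0 := by linear_combination hζ3
    rcases mul_eq_zero.1 h1 with h | h
    · exact absurd (sub_eq_zero.1 h) hζ1
    · exact h
  have hchi : ∀ t, chi x0 (t + 8) = ζ * chi x0 t := by
    intro t
    unfold chi
    rw [mul_add, AddChar.map_add_eq_mul, hζ, mul_comm x0 8]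
    ring
  have hkey : ∀ t, ‖pp a t‖ ≤ 1 - ‖a x0‖ / 2 := by
    intro t
    have h1 := cube_root (ζ := ζ) (p := pp a t) (z := a x0 * chi x0 t) hζ0 (hf t) (by
      have := hf (t + 8)
      rw [pp_add, hchi] at this
      convert this using 2
      ring) (by
      have := hf (t + 8 + 8)
      rw [pp_add, pp_add, hchi, hchi] at this
      convert this using 2
      ring)
    have h2 : ‖a x0 * chi x0 t‖ = ‖a x0‖ := by
      rw [norm_mul]; unfold chi; rw [norm_e, mul_one]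
    rw [h2] at h1
    have h3 : (‖pp a t‖ + ‖a x0‖ / 2) ^ 2 ≤ 1 ^ 2 := by nlinarith [sq_nonneg (‖a x0‖)]
    have h4 := abs_le_of_sq_le_sq h3 (by norm_num)
    linarith [(abs_le.1 h4).2]
  have hs := parseval a
  have hpos : 0 ≤ 1 - ‖a x0‖ / 2 := (norm_nonneg _).trans (hkey 0)
  have hsq : ∀ t, ‖pp a t‖ ^ 2 ≤ (1 - ‖a x0‖ / 2) ^ 2 := fun t =>
    pow_le_pow_left₀ (norm_nonneg _) (hkey t) 2
  have h5 : (‖a 0‖ + (‖a 6‖ + (‖a 12‖ + ‖a 18‖))) ^ 2 ≤ (2 * (1 - ‖a x0‖ / 2)) ^ 2 := by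
    have := hsq 0
    have := hsq 1
    have := hsq 2
    have := hsq 3
    nlinarith [sq_nonneg (‖a 0‖ - ‖a 6‖), sq_nonneg (‖a 0‖ - ‖a 12‖), sq_nonneg (‖a 0‖ - ‖a 18‖),
      sq_nonneg (‖a 6‖ - ‖a 12‖), sq_nonneg (‖a 6‖ - ‖a 18‖), sq_nonneg (‖a 12‖ - ‖a 18‖)]
  have h6 := (abs_le.1 (abs_le_of_sq_le_sq h5 (by linarith))).2
  linarith

lemma attained (x0 : ZMod 24) (hx : x0 ∉ H4) :
    ∃ a : ZMod 24 → ℂ, (∀ t : ZMod 24, ‖∑ x ∈ insert x0 H4, a x * chi x t‖ ≤ 1) ∧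
      2 = ∑ x ∈ insert x0 H4, ‖a x‖ := by
  have n1 : x0 ≠ 0 := fun h => hx (by rw [h]; decide)
  have n2 : x0 ≠ 6 := fun h => hx (by rw [h]; decide)
  have n3 : x0 ≠ 12 := fun h => hx (by rw [h]; decide)
  have n4 : x0 ≠ 18 := fun h => hx (by rw [h]; decide)
  refine ⟨fun x => if x = x0 then 0 else if x = 18 then -(1 / 2) else 1 / 2, ?_, ?_⟩
  · intro t
    have m1 : (0 : ZMod 24) ≠ 18 := by decide
    have m2 : (6 : ZMod 24) ≠ 18 := by decide
    have m3 : (12 : ZMod 24) ≠ 18 := by decide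
    rw [Finset.sum_insert hx, sum_H4]
    simp only [if_pos, if_neg n1.symm, if_neg n2.symm, if_neg n3.symm, if_neg n4.symm, if_neg m1,
      if_neg m2, if_neg m3]
    have c0 : chi 0 t = 1 := by
      unfold chi; rw [zero_mul, AddChar.map_zero_eq_one]
    have c12 : chi 12 t = chi 6 t * chi 6 t := by
      unfold chi
      rw [← AddChar.map_add_eq_mul, ← add_mul]
      congr 2
    have c18 : chi 18 t = chi 6 t * chi 6 t * chi 6 t := by
      unfold chi
      rw [← AddChar.map_add_eq_mul, ← AddChar.map_add_eq_mul, ← add_mul, ← add_mul]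
      congr 2
    have cn : ‖chi 6 t‖ = 1 := norm_e _
    have c4 : chi 6 t ^ 4 = 1 := by
      have : chi 6 t ^ 4 = chi (6 + 6 + 6 + 6) t := by
        unfold chi
        rw [add_mul, add_mul, add_mul, AddChar.map_add_eq_mul, AddChar.map_add_eq_mul,
          AddChar.map_add_eq_mul]
        ring
      rw [this]
      have e : (6 + 6 + 6 + 6 : ZMod 24) = 0 := by decide
      rw [e, c0]
    rw [c0, c12, c18]
    set y := chi 6 t with hy
    have h1 : (y ^ 2 - 1) * (y ^ 2 + 1) = 0 := by linear_combination c4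
    rcases mul_eq_zero.1 h1 with h | h
    · have : (0 * chi x0 t + (1 / 2 * 1 + (1 / 2 * y + (1 / 2 * (y * y) + -(1 / 2) * (y * y * y)))) :
          ℂ) = 1 := by
        linear_combination (1 / 2 - y / 2) * h
      rw [this]; simp
    · have : (0 * chi x0 t + (1 / 2 * 1 + (1 / 2 * y + (1 / 2 * (y * y) + -(1 / 2) * (y * y * y)))) :
          ℂ) = y := by
        linear_combination (1 / 2 - y / 2) * h
      rw [this, cn]
  · have m1 : (0 : ZMod 24) ≠ 18 := by decide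
    have m2 : (6 : ZMod 24) ≠ 18 := by decide
    have m3 : (12 : ZMod 24) ≠ 18 := by decide
    rw [Finset.sum_insert hx, sum_H4]
    simp only [if_pos, if_neg n1.symm, if_neg n2.symm, if_neg n3.symm, if_neg n4.symm, if_neg m1,
      if_neg m2, if_neg m3]
    norm_num

lemma sidon_eq (x0 : ZMod 24) (h8 : 8 * x0 ≠ 0) (hx : x0 ∉ H4) : sidon (insert x0 H4) = 2 := by
  obtain ⟨a, ha, ha2⟩ := attained x0 hx
  apply le_antisymm
  · refine csSup_le (Set.nonempty_of_mem (x := 2) ⟨a, ha, ha2⟩) ?_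
    rintro r ⟨b, hb, rfl⟩
    exact upper x0 h8 hx b hb
  · apply le_csSup
    · refine ⟨2, ?_⟩
      rintro r ⟨b, hb, rfl⟩
      exact upper x0 h8 hx b hb
    · exact ⟨a, ha, ha2⟩

lemma sqrt_five_ne : (2 : ℝ) ≠ Real.sqrt 5 := by
  intro h
  have h1 : (2 : ℝ) ^ 2 = 5 := by
    rw [h, Real.sq_sqrt (by norm_num)]
  norm_num at h1

/-- Two inequivalent five element subsets of `ℤ/24` with Sidon constant two. -/
theorem result : ∃ E F : Finset (ZMod 24), E.card = 5 ∧ F.card = 5 ∧ sidon E = 2 ∧ sidon F = 2 ∧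
    ¬ Equivalent E F ∧ ¬ IsExtreme E ∧ ¬ IsExtreme F := by
  have s1 : sidon (insert 1 H4) = 2 := sidon_eq 1 (by decide) (by decide)
  have s2 : sidon (insert 2 H4) = 2 := sidon_eq 2 (by decide) (by decide)
  have c1 : (insert (1 : ZMod 24) H4).card = 5 := by decide
  have c2 : (insert (2 : ZMod 24) H4).card = 5 := by decide
  refine ⟨insert 1 H4, insert 2 H4, c1, c2, s1, s2, ?_, ?_, ?_⟩
  · rintro ⟨u, c, hu, h⟩
    have h2 : ∀ u c : ZMod 24, IsUnit u →
        insert (2 : ZMod 24) H4 ≠ (insert (1 : ZMod 24) H4).image (fun x => u * x + c) := by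
      decide +kernel
    exact h2 u c hu h
  · unfold IsExtreme
    rw [s1, c1]
    exact_mod_cast sqrt_five_ne
  · unfold IsExtreme
    rw [s2, c2]
    exact_mod_cast sqrt_five_ne

end Pool.Agent.Results.MP_e96fbd_an.Five
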